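import Pool.Agent.Lib_helper41.Main

set_option autoImplicit false

namespace Pool.Agent.Results.MP_07b45e_an.Density

open Filter Topology Pool.Agent.LibHelper41

/-- `f` is differentiable at the point `a` of `X` (relative to `X`), with derivative `c`:
`(f z - f a) / (z - a)` tends to `c` as `z` tends to `a` within `X`, `z ≠ a`. -/
def HasDerivAtPt {X : Set ℂ} (f : X → ℂ) (a : X) (c : ℂ) : Prop :=
  Tendsto (fun z : X => (f z - f a) / ((z : ℂ) - (a : ℂ))) (𝓝[≠] a) (𝓝 c)

/-- The derivative `f'` of `f : X → ℂ`: the limit of the difference quotients within `X`. -/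
noncomputable def derivative {X : Set ℂ} (f : X → ℂ) (a : X) : ℂ :=
  limUnder (𝓝[≠] a) (fun z : X => (f z - f a) / ((z : ℂ) - (a : ℂ)))

/-- The algebra `D^{(1)}(X)`: the continuous functions on `X` which are differentiable at every
point of `X`, with continuous derivative. -/
def D1 (X : Set ℂ) : Set (X → ℂ) :=
  {f | Continuous f ∧ (∀ a : X, ∃ c : ℂ, HasDerivAtPt f a c) ∧ Continuous (derivative f)}

/-- The supremum norm on `X`. -/
noncomputable def supNorm {X : Set ℂ} (f : X → ℂ) : ℝ := ⨆ z : X, ‖f z‖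

/-- The norm of `D^{(1)}(X)`: `|f|_X + |f'|_X`. -/
noncomputable def D1norm {X : Set ℂ} (f : X → ℂ) : ℝ := supNorm f + supNorm (derivative f)

/-- The set `P_0(X)` of the restrictions to `X` of polynomials in `z`. -/
def P0 (X : Set ℂ) : Set (X → ℂ) := {f | ∃ p : Polynomial ℂ, ∀ z : X, f z = p.eval (z : ℂ)}

variable {X : Set ℂ}

theorem neBot_of_perfect (hX : Perfect X) (a : X) : (𝓝[≠] a).NeBot := by
  rw [nhdsWithin_neBot]
  intro t ht
  rw [mem_nhds_subtype] at ht
  obtain ⟨U, hU, hUt⟩ := ht
  obtain ⟨y, hy, hya⟩ := (preperfect_iff_nhds.1 hX.acc) a a.2 U hU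
  refine ⟨⟨y, hy.2⟩, hUt hy.1, ?_⟩
  intro h
  exact hya (congrArg Subtype.val h)

theorem derivative_eq (hX : Perfect X) {f : X → ℂ} {a : X} {c : ℂ} (h : HasDerivAtPt f a c) :
    derivative f a = c := by
  have := neBot_of_perfect hX a
  exact h.limUnder_eq

theorem hasDerivAtPt_derivative (hX : Perfect X) {f : X → ℂ} (hf : f ∈ D1 X) (a : X) :
    HasDerivAtPt f a (derivative f a) := by
  obtain ⟨c, hc⟩ := hf.2.1 a
  rw [derivative_eq hX hc]
  exact hc

theorem hasDerivAtPt_poly (p : Polynomial ℂ) (a : X) :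
    HasDerivAtPt (fun z : X => p.eval (z : ℂ)) a (p.derivative.eval (a : ℂ)) := by
  have h1 := hasDerivAt_iff_tendsto_slope.1 (p.hasDerivAt (a : ℂ))
  have h2 : Tendsto (fun z : X => (z : ℂ)) (𝓝[≠] a) (𝓝[≠] (a : ℂ)) := by
    refine tendsto_nhdsWithin_iff.2 ⟨?_, ?_⟩
    · exact (continuous_subtype_val.tendsto a).mono_left nhdsWithin_le_nhds
    · filter_upwards [self_mem_nhdsWithin] with z hz
      intro h
      exact hz (Subtype.ext h)
  have h3 := h1.comp h2
  unfold HasDerivAtPt
  refine h3.congr (fun z => ?_)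
  simp only [Function.comp_apply, slope_def_field]

theorem HasDerivAtPt.sub {f g : X → ℂ} {a : X} {c d : ℂ} (hf : HasDerivAtPt f a c)
    (hg : HasDerivAtPt g a d) : HasDerivAtPt (f - g) a (c - d) := by
  have h := Tendsto.sub hf hg
  unfold HasDerivAtPt
  refine h.congr (fun z => ?_)
  simp only [Pi.sub_apply]
  ring

/-- **Full affirmative answer to Q1.** If `X` is a perfect, polynomially convex compact plane
set, then `P_0(X)` is dense in `D^{(1)}(X)` for the norm `|f|_X + |f'|_X`. -/
theorem result (X : Set ℂ) (hne : X.Nonempty) (hX : IsCompact X) (hperf : Perfect X)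
    (hconn : IsConnected Xᶜ) :
    P0 X ⊆ D1 X ∧ ∀ f ∈ D1 X, ∀ ε : ℝ, 0 < ε → ∃ p ∈ P0 X, D1norm (f - p) < ε := by
  classical
  constructor
  · rintro f ⟨p, hp⟩
    have hf : f = fun z : X => p.eval (z : ℂ) := funext hp
    have hd : ∀ a : X, HasDerivAtPt f a (p.derivative.eval (a : ℂ)) := by
      intro a
      rw [hf]
      exact hasDerivAtPt_poly p a
    refine ⟨?_, fun a => ⟨_, hd a⟩, ?_⟩
    · rw [hf]
      exact p.continuous.comp continuous_subtype_val
    · have : derivative f = fun a : X => p.derivative.eval (a : ℂ) :=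
        funext (fun a => derivative_eq hperf (hd a))
      rw [this]
      exact p.derivative.continuous.comp continuous_subtype_val
  · intro f hf ε hε
    -- extensions by zero to the plane
    set F : ℂ → ℂ := fun z => if h : z ∈ X then f ⟨z, h⟩ else 0 with hF
    set G : ℂ → ℂ := fun z => if h : z ∈ X then derivative f ⟨z, h⟩ else 0 with hG
    have hF1 : ∀ z : X, F z = f z := by
      intro z
      simp only [hF]
      rw [dif_pos z.2]
    have hG1 : ∀ z : X, G z = derivative f z := by
      intro z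
      simp only [hG]
      rw [dif_pos z.2]
    have hd : ∀ z ∈ X, HasDerivWithinAt F (G z) X z := by
      intro z hz
      rw [hasDerivWithinAt_iff_tendsto_slope, Metric.tendsto_nhdsWithin_nhds]
      intro η hη
      have h1 := hasDerivAtPt_derivative hperf hf ⟨z, hz⟩
      unfold HasDerivAtPt at h1
      rw [Metric.tendsto_nhdsWithin_nhds] at h1
      obtain ⟨δ, hδ, h2⟩ := h1 η hη
      refine ⟨δ, hδ, fun x hx hxz => ?_⟩
      have h3 := h2 (x := ⟨x, hx.1⟩) (fun h => hx.2 (congrArg Subtype.val h)) hxz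
      have e1 := hF1 ⟨x, hx.1⟩
      have e2 := hF1 ⟨z, hz⟩
      have e3 := hG1 ⟨z, hz⟩
      simp only at e1 e2 e3
      rw [slope_def_field, e1, e2, e3]
      exact h3
    have hGc : ContinuousOn G X := by
      rw [continuousOn_iff_continuous_domRestrict]
      have : X.domRestrict G = derivative f := funext hG1
      rw [this]
      exact hf.2.2
    obtain ⟨p, hp⟩ := app_of_hasDerivWithinAt hX hconn.isPreconnected hd hGc (ε / 3)
      (by positivity)
    have : Nonempty X := hne.to_subtype
    refine ⟨fun z : X => p.eval (z : ℂ), ⟨p, fun _ => rfl⟩, ?_⟩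
    have hder : ∀ a : X, derivative (f - fun z : X => p.eval (z : ℂ)) a =
        derivative f a - p.derivative.eval (a : ℂ) := fun a =>
      derivative_eq hperf ((hasDerivAtPt_derivative hperf hf a).sub (hasDerivAtPt_poly p a))
    have h1 : supNorm (f - fun z : X => p.eval (z : ℂ)) ≤ ε / 3 := by
      refine ciSup_le (fun z => ?_)
      rw [Pi.sub_apply, ← hF1 z, norm_sub_rev]
      exact (hp z z.2).1
    have h2 : supNorm (derivative (f - fun z : X => p.eval (z : ℂ))) ≤ ε / 3 := by
      refine ciSup_le (fun z => ?_)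
      rw [hder z, ← hG1 z, norm_sub_rev]
      exact (hp z z.2).2
    unfold D1norm
    linarith

end Pool.Agent.Results.MP_07b45e_an.Density
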